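import Pool.Agent.H36.Simp3

open Pool.Agent.H38.NP Pool.Agent.H38.ER Pool.Agent.H36.Simp

theorem Pool.Agent.Results.MP_4249f6_lc.NotHard.result :
    (SearchHardOn SValid Sol → ∀ A, InNP A → InPPoly A) ∧
      (NPHardOn Valid Yes → ∀ A, InNP A → InP A) ∧
      (TuringHardOn Valid Yes → ∀ A, InNP A → InPPoly A) :=
  ⟨search, manyOne, turing⟩
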